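import Pool.Agent.Helper50.BL.Stmts
import Pool.Agent.Helper50.BL.Base

/-! # The approximation property of the net of the class step -/

namespace Pool.Agent.Helper50.BL

open Finset
open scoped Classical

section lemmas

variable {V J : Type} [DecidableEq V] [DecidableEq J]

/-- fields over disjoint unions -/
theorem ast_fld_union (S : J → Finset V) (lam : J → ℝ) {A B : Finset J} (h : Disjoint A B)
    (x : V) : fld S lam (A ∪ B) x = fld S lam A x + fld S lam B x := by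
  unfold fld
  rw [Finset.filter_union, Finset.sum_union (Finset.disjoint_filter_filter h)]

omit [DecidableEq V] in
/-- averages are bounded by the maximum -/
theorem ast_avg {s : Finset V} (hs : s.Nonempty) {g : V → ℝ} {b : ℝ}
    (hg : ∀ x ∈ s, |g x| ≤ b) : |(1 / (#s : ℝ)) * ∑ x ∈ s, g x| ≤ b := by
  have hc : (0 : ℝ) < (#s : ℝ) := by exact_mod_cast hs.card_pos
  have h1 : |∑ x ∈ s, g x| ≤ (#s : ℝ) * b := by
    refine (Finset.abs_sum_le_sum_abs _ _).trans ((Finset.sum_le_sum hg).trans ?_)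
    rw [Finset.sum_const, nsmul_eq_mul]
  rw [abs_mul, abs_of_pos (one_div_pos.2 hc)]
  calc 1 / (#s : ℝ) * |∑ x ∈ s, g x| ≤ 1 / (#s : ℝ) * ((#s : ℝ) * b) :=
        mul_le_mul_of_nonneg_left h1 (one_div_pos.2 hc).le
    _ = b := by field_simp

/-- the decoded value is close to the true value -/
theorem ast_dec (S : J → Finset V) (A I : Finset J) (lam : J → ℝ) (Φ : V → ℤ) (r c : J → ℤ)
    (T Lam h : ℝ) (hT : 0 < T) (hAI : Disjoint A I) (j : J) (hj : j ∈ I)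
    (hne : (S j).Nonempty)
    (h1 : ∀ x, |h / T * (Φ x : ℝ) - fld S lam A x| ≤ h / T)
    (h2 : |(1 / (#(S j) : ℝ)) * ∑ x ∈ S j, (fld S lam (A ∪ I) x
          + ∑ i ∈ (I.erase j).filter (fun i => x ∈ S i), (8 * Lam * h / T * (r i : ℝ) - lam i))
          - 8 * h / T * (c j : ℝ)| ≤ 4 * h / T) :
    |h * dec S I T Lam Φ r c j - lam j| ≤ 5 * h / T := by
  have hc : (0 : ℝ) < (#(S j) : ℝ) := by exact_mod_cast hne.card_pos
  have e0 : ∀ x ∈ S j, fld S lam (A ∪ I) x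
      + ∑ i ∈ (I.erase j).filter (fun i => x ∈ S i), (8 * Lam * h / T * (r i : ℝ) - lam i)
      = fld S lam A x + lam j
        + 8 * Lam * h / T * ∑ i ∈ (I.erase j).filter (fun i => x ∈ S i), (r i : ℝ) := by
    intro x hx
    have e1 : fld S lam I x = lam j
        + ∑ i ∈ (I.erase j).filter (fun i => x ∈ S i), lam i := by
      unfold fld
      have e2 : (I.erase j).filter (fun i => x ∈ S i) = (I.filter (fun i => x ∈ S i)).erase j := by
        ext i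
        simp only [Finset.mem_filter, Finset.mem_erase]
        tauto
      rw [e2, Finset.add_sum_erase _ _ (Finset.mem_filter.2 ⟨hj, hx⟩)]
    rw [ast_fld_union S lam hAI x, e1, Finset.sum_sub_distrib, Finset.mul_sum]
    ring
  have e1 : ∑ x ∈ S j, (fld S lam (A ∪ I) x
      + ∑ i ∈ (I.erase j).filter (fun i => x ∈ S i), (8 * Lam * h / T * (r i : ℝ) - lam i))
      = ∑ x ∈ S j, fld S lam A x + (#(S j) : ℝ) * lam j
        + 8 * Lam * h / T
          * ∑ x ∈ S j, ∑ i ∈ (I.erase j).filter (fun i => x ∈ S i), (r i : ℝ) := by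
    rw [Finset.sum_congr rfl e0, Finset.sum_add_distrib, Finset.sum_add_distrib,
      Finset.sum_const, nsmul_eq_mul, ← Finset.mul_sum]
  have e2 : ∑ x ∈ S j, ((Φ x : ℝ) / T
      + 8 * Lam / T * ∑ i ∈ (I.erase j).filter (fun i => x ∈ S i), (r i : ℝ))
      = (∑ x ∈ S j, (Φ x : ℝ)) / T + 8 * Lam / T
          * ∑ x ∈ S j, ∑ i ∈ (I.erase j).filter (fun i => x ∈ S i), (r i : ℝ) := by
    rw [Finset.sum_add_distrib, ← Finset.sum_div, ← Finset.mul_sum]
  have e3 : ∑ x ∈ S j, (h / T * (Φ x : ℝ) - fld S lam A x)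
      = h / T * (∑ x ∈ S j, (Φ x : ℝ)) - ∑ x ∈ S j, fld S lam A x := by
    rw [Finset.sum_sub_distrib, ← Finset.mul_sum]
  have b1 := ast_avg hne (g := fun x => h / T * (Φ x : ℝ) - fld S lam A x) (b := h / T)
    (fun x _ => h1 x)
  simp only [e3] at b1
  rw [e1] at h2
  have key : h * dec S I T Lam Φ r c j - lam j
      = -((1 / (#(S j) : ℝ)) * (h / T * (∑ x ∈ S j, (Φ x : ℝ)) - ∑ x ∈ S j, fld S lam A x))
        - ((1 / (#(S j) : ℝ)) * (∑ x ∈ S j, fld S lam A x + (#(S j) : ℝ) * lam j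
        + 8 * Lam * h / T
          * ∑ x ∈ S j, ∑ i ∈ (I.erase j).filter (fun i => x ∈ S i), (r i : ℝ))
          - 8 * h / T * (c j : ℝ)) := by
    unfold dec
    rw [e2]
    field_simp
    ring
  rw [key]
  have e5 : 5 * h / T = h / T + 4 * h / T := by ring
  rw [e5]
  refine (abs_sub _ _).trans ?_
  rw [abs_neg]
  exact add_le_add b1 h2

end lemmas

section level

variable {V J : Type} [Fintype V] [DecidableEq V] [Fintype J] [DecidableEq J]

omit [Fintype V] [DecidableEq J] in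
/-- the number of sets of `B` through a point -/
theorem ast_deg {S : J → Finset V} {t : ℕ} (hD : Deg S t) (B : Finset J) (x : V) :
    #(B.filter (fun j => x ∈ S j)) ≤ t :=
  (Finset.card_le_card (Finset.filter_subset_filter _ (Finset.subset_univ B))).trans (hD x)

omit [Fintype V] in
/-- the unrounded new field is close to the true field -/
theorem ast_pre (S : J → Finset V) (A B I : Finset J) (lam : J → ℝ) (Φ : V → ℤ) (r c : J → ℤ)
    (t : ℕ) (T Lam h : ℝ) (hT : 0 < T) (hh : 0 < h) (hAB : Disjoint A B)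
    (hD : Deg S t) (ht : 1 ≤ t) (hT64 : 64 * (t : ℝ) ≤ T)
    (h1 : ∀ x, |h / T * (Φ x : ℝ) - fld S lam A x| ≤ h / T)
    (h2 : ∀ j ∈ B, |h * dec S I T Lam Φ r c j - lam j| ≤ 5 * h / T) (x : V) :
    |h * ((Φ x : ℝ) / T + ∑ j ∈ B.filter (fun j => x ∈ S j), dec S I T Lam Φ r c j)
      - fld S lam (A ∪ B) x| < h / 8 := by
  have ht' : (1 : ℝ) ≤ t := by exact_mod_cast ht
  have e1 : h * ((Φ x : ℝ) / T + ∑ j ∈ B.filter (fun j => x ∈ S j), dec S I T Lam Φ r c j)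
      - fld S lam (A ∪ B) x
      = (h / T * (Φ x : ℝ) - fld S lam A x)
        + ∑ j ∈ B.filter (fun j => x ∈ S j), (h * dec S I T Lam Φ r c j - lam j) := by
    rw [ast_fld_union S lam hAB x, Finset.sum_sub_distrib, ← Finset.mul_sum]
    unfold fld
    ring
  have hq : 0 ≤ 5 * h / T := by positivity
  have b2 : |∑ j ∈ B.filter (fun j => x ∈ S j), (h * dec S I T Lam Φ r c j - lam j)|
      ≤ t * (5 * h / T) := by
    refine (Finset.abs_sum_le_sum_abs _ _).trans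
      ((Finset.sum_le_sum fun j hj => h2 j (Finset.mem_filter.1 hj).1).trans ?_)
    rw [Finset.sum_const, nsmul_eq_mul]
    refine mul_le_mul_of_nonneg_right ?_ hq
    exact_mod_cast ast_deg hD B x
  rw [e1]
  refine lt_of_le_of_lt ((abs_add_le _ _).trans (add_le_add (h1 x) b2)) ?_
  have e2 : h / T + t * (5 * h / T) = (1 + 5 * t) * h / T := by ring
  rw [e2, div_lt_iff₀ hT]
  nlinarith [mul_le_mul_of_nonneg_left hT64 hh.le, mul_le_mul_of_nonneg_left ht' hh.le]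

/-- the rounded field -/
theorem ast_round {z f h : ℝ} (hh : 0 < h) (h1 : |h * z - f| < h / 8) :
    |h * ((round z : ℤ) : ℝ) - f| ≤ h ∧ (|f| < h / 4 → round z = 0) := by
  have hr := abs_sub_round z
  constructor
  · have e : h * ((round z : ℤ) : ℝ) - f = -(h * (z - ((round z : ℤ) : ℝ))) + (h * z - f) := by
      ring
    rw [e]
    refine (abs_add_le _ _).trans ?_
    rw [abs_neg, abs_mul, abs_of_pos hh]
    have := mul_le_mul_of_nonneg_left hr hh.le
    linarith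
  · intro hf
    have h2 : |h * z| < 3 / 8 * h := by
      have e : h * z = (h * z - f) + f := by ring
      rw [e]
      refine lt_of_le_of_lt (abs_add_le _ _) ?_
      linarith
    rw [abs_mul, abs_of_pos hh] at h2
    have h3 : |z| < 3 / 8 := by
      by_contra hc
      push Not at hc
      nlinarith [mul_le_mul_of_nonneg_left hc hh.le]
    rw [round_eq_zero_iff]
    rw [abs_lt] at h3
    constructor <;> linarith [h3.1, h3.2]

omit [DecidableEq J] in
/-- the averages of `|f|` over the sets -/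
theorem ast_l1 (S : J → Finset V) (B : Finset J) (t : ℕ) (Mlow : ℝ) (f : V → ℝ) (hD : Deg S t)
    (hM : 0 < Mlow) (hB : ∀ j ∈ B, Mlow ≤ (#(S j) : ℝ)) :
    ∑ j ∈ B, (1 / (#(S j) : ℝ)) * ∑ x ∈ S j, |f x| ≤ t / Mlow * l1 f := by
  have h1 : ∑ j ∈ B, (1 / (#(S j) : ℝ)) * ∑ x ∈ S j, |f x|
      ≤ ∑ j ∈ B, (1 / Mlow) * ∑ x ∈ S j, |f x| := by
    refine Finset.sum_le_sum fun j hj => ?_
    exact mul_le_mul_of_nonneg_right (one_div_le_one_div_of_le hM (hB j hj))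
      (Finset.sum_nonneg fun x _ => abs_nonneg _)
  have h2 : ∑ j ∈ B, ∑ x ∈ S j, |f x| ≤ t * l1 f := by
    have e1 : ∑ j ∈ B, ∑ x ∈ S j, |f x|
        = ∑ x, (#(B.filter (fun j => x ∈ S j)) : ℝ) * |f x| := by
      have e2 : ∀ j ∈ B, ∑ x ∈ S j, |f x| = ∑ x, (if x ∈ S j then |f x| else 0) := by
        intro j _
        rw [Finset.sum_ite_mem, Finset.univ_inter]
      rw [Finset.sum_congr rfl e2, Finset.sum_comm]
      refine Finset.sum_congr rfl fun x _ => ?_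
      rw [← Finset.sum_filter, Finset.sum_const, nsmul_eq_mul]
    rw [e1]
    unfold l1
    rw [Finset.mul_sum]
    refine Finset.sum_le_sum fun x _ => mul_le_mul_of_nonneg_right ?_ (abs_nonneg _)
    exact_mod_cast ast_deg hD B x
  refine h1.trans ?_
  rw [← Finset.mul_sum]
  calc 1 / Mlow * ∑ j ∈ B, ∑ x ∈ S j, |f x| ≤ 1 / Mlow * (t * l1 f) :=
        mul_le_mul_of_nonneg_left h2 (one_div_pos.2 hM).le
    _ = t / Mlow * l1 f := by ring

/-- the fields of the components: sum and supports -/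
theorem ast_clf (h6 : ST_LOC) {ι : Type} (φ : ι → V → ℤ) (S : J → Finset V) (I B : Finset J)
    (T Lam : ℝ) (Q : Finset (Pol ι J)) (C : Finset (Finset (Pol ι J)))
    (hC : IsComp (Rel φ S I B) Q C) :
    (∀ x, ∑ A ∈ C, clf φ S I B T Lam A x = outQ φ S I B T Lam Q x) ∧
    ∑ A ∈ C, #(isupp (clf φ S I B T Lam A)) ≤ #(isupp (outQ φ S I B T Lam Q)) := by
  obtain ⟨k1, k2⟩ := (h6 V J ι φ S I B T Lam).2 Q C hC
  have e0 : ∀ A ∈ C, clf φ S I B T Lam A = outQ φ S I B T Lam A := by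
    intro A hA
    unfold clf
    rw [if_pos (hC.1 A hA)]
  have e1 : ∀ x, ∑ A ∈ C, clf φ S I B T Lam A x = outQ φ S I B T Lam Q x := by
    intro x
    rw [k1 x]
    exact Finset.sum_congr rfl fun A hA => by rw [e0 A hA]
  refine ⟨e1, ?_⟩
  have hdis : ∀ A ∈ C, ∀ A' ∈ C, A ≠ A' →
      Disjoint (isupp (clf φ S I B T Lam A)) (isupp (clf φ S I B T Lam A')) := by
    intro A hA A' hA' hne
    rw [Finset.disjoint_left]
    intro x hx hx'
    simp only [isupp, Finset.mem_filter, Finset.mem_univ, true_and] at hx hx'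
    rw [e0 A hA] at hx
    rw [e0 A' hA'] at hx'
    rcases k2 A hA A' hA' hne x with h | h
    · exact hx h
    · exact hx' h
  rw [← Finset.card_biUnion hdis]
  refine Finset.card_le_card ?_
  intro x hx
  rw [Finset.mem_biUnion] at hx
  obtain ⟨A, hA, hx⟩ := hx
  simp only [isupp, Finset.mem_filter, Finset.mem_univ, true_and] at hx ⊢
  rw [← e1 x, Finset.sum_eq_single_of_mem A hA]
  · exact hx
  · intro A' hA' hne
    rw [e0 A' hA']
    rw [e0 A hA] at hx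
    rcases k2 A hA A' hA' (Ne.symm hne) x with h | h
    · exact absurd h hx
    · exact h

/-- one level of the new net -/
theorem ast_level (h1 : ST_RC) (h5 : ST_COMP) (h6 : ST_LOC) (h7 : ST_QPC)
    (N : Net V) (S : J → Finset V) (A B C : Finset J) (t : ℕ)
    (D T Lam κ β Mlow h e : ℝ) (hβ : 0 ≤ β) (hAB : Disjoint A B)
    (hAC : Disjoint A C) (ht : 1 ≤ t) (hD : Deg S t)
    (hsz : ∀ i ∈ B ∪ C, (#(S i) : ℝ) ≤ D) (hM : 0 < Mlow)
    (hB : ∀ j ∈ B, Mlow ≤ (#(S j) : ℝ)) (hLam : 1 ≤ Lam) (hT64 : 64 * (t : ℝ) ≤ T)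
    (hκ1 : 1 ≤ κ) (hov : ∀ j ∈ B, ∀ i ∈ B ∪ C, i ≠ j →
      32 * (t : ℝ) * Lam ^ 3 * (#(S i ∩ S j) : ℝ) ≤ (#(S j) : ℝ)) (hh : 0 < h) (lam : J → ℝ)
    (F : Finset N.ι)
    (hF : ∀ x, |h / T * ((∑ a ∈ F, N.φ a x : ℤ) : ℝ) - fld S lam A x| ≤ h / T)
    (hFc : ∑ a ∈ F, N.H a ≤ e) :
    ∃ G : Finset (Finset (Pol N.ι J)),
      (∀ x, |h * ((∑ a ∈ G, clf N.φ S (B ∪ C) B T Lam a x : ℤ) : ℝ) - fld S lam (A ∪ B) x| ≤ h) ∧
      (∀ x, |fld S lam (A ∪ B) x| < h / 4 → (∑ a ∈ G, clf N.φ S (B ∪ C) B T Lam a x) = 0) ∧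
      ∑ a ∈ G, (∑ p ∈ a, pcost N.H κ p
          + β * (#(isupp (clf N.φ S (B ∪ C) B T Lam a)) : ℝ))
        ≤ e + ∑ i ∈ B ∪ C, E1c κ t T Lam D h |lam i|
          + ∑ j ∈ B, E2c κ T h ((1 / (#(S j) : ℝ)) * ∑ x ∈ S j, |fld S lam (A ∪ B ∪ C) x|)
          + β * (#(univ.filter (fun x => h / 4 ≤ |fld S lam (A ∪ B) x|)) : ℝ) := by
  have ht' : (1 : ℝ) ≤ t := by exact_mod_cast ht
  have hT : 0 < T := by linarith
  have hne : ∀ j ∈ B, (S j).Nonempty := by
    intro j hj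
    rw [← Finset.card_pos]
    have : (0 : ℝ) < (#(S j) : ℝ) := lt_of_lt_of_le hM (hB j hj)
    exact_mod_cast this
  obtain ⟨r, c, hr, hc, hrc, hcost⟩ := h1 V J S (B ∪ C) B lam (fld S lam (A ∪ B ∪ C)) t D T Lam κ h
    Finset.subset_union_left ht hD hsz hne hLam hT hh hκ1 hov
  obtain ⟨Q, hQΦ, hQr, hQc, hQcost⟩ := h7 V J N κ F r c
  obtain ⟨G, hG⟩ := h5 (Pol N.ι J) (Rel N.φ S (B ∪ C) B) (by
    intro a b hab
    unfold Rel at hab ⊢
    rwa [disjoint_comm]) Q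
  obtain ⟨g1, g2⟩ := ast_clf h6 N.φ S (B ∪ C) B T Lam Q G hG
  have hAI : Disjoint A (B ∪ C) := Finset.disjoint_union_right.2 ⟨hAB, hAC⟩
  have hdec : ∀ j ∈ B, |h * dec S (B ∪ C) T Lam (fun x => ∑ a ∈ F, N.φ a x) r c j - lam j|
      ≤ 5 * h / T := by
    intro j hj
    have := hrc j hj
    rw [Finset.union_assoc] at this
    exact ast_dec S A (B ∪ C) lam (fun x => ∑ a ∈ F, N.φ a x) r c T Lam h hT hAI j
      (Finset.mem_union_left _ hj) (hne j hj) hF this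
  have hpre := ast_pre S A B (B ∪ C) lam (fun x => ∑ a ∈ F, N.φ a x) r c t T Lam h hT hh hAB hD ht
    hT64 hF hdec
  have hout : ∀ x, outQ N.φ S (B ∪ C) B T Lam Q x
      = round ((((fun x => ∑ a ∈ F, N.φ a x) x : ℤ) : ℝ) / T
        + ∑ j ∈ B.filter (fun j => x ∈ S j),
          dec S (B ∪ C) T Lam (fun x => ∑ a ∈ F, N.φ a x) r c j) := by
    intro x
    unfold outQ
    rw [funext hQΦ, funext hQr, funext hQc]
    rfl
  have hfin := fun x => ast_round hh (hpre x)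
  refine ⟨G, ?_, ?_, ?_⟩
  · intro x
    rw [g1 x, hout x]
    exact (hfin x).1
  · intro x hx
    rw [g1 x, hout x]
    exact (hfin x).2 hx
  · rw [Finset.sum_add_distrib, ← hG.sum (pcost N.H κ), ← Finset.mul_sum, hQcost]
    have c1 : ∑ i, cst κ (r i) = ∑ i ∈ B ∪ C, cst κ (r i) := by
      symm
      refine Finset.sum_subset (Finset.subset_univ _) fun i _ hi => ?_
      rw [hr i hi]
      simp [cst]
    have c2 : ∑ j, cst κ (c j) = ∑ j ∈ B, cst κ (c j) := by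
      symm
      refine Finset.sum_subset (Finset.subset_univ _) fun i _ hi => ?_
      rw [hc i hi]
      simp [cst]
    have c3 : (∑ a ∈ G, (#(isupp (clf N.φ S (B ∪ C) B T Lam a)) : ℝ))
        ≤ (#(univ.filter (fun x => h / 4 ≤ |fld S lam (A ∪ B) x|)) : ℝ) := by
      have c4 : #(isupp (outQ N.φ S (B ∪ C) B T Lam Q))
          ≤ #(univ.filter (fun x => h / 4 ≤ |fld S lam (A ∪ B) x|)) := by
        refine Finset.card_le_card ?_
        intro x hx
        simp only [isupp, Finset.mem_filter, Finset.mem_univ, true_and] at hx ⊢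
        by_contra hc'
        push Not at hc'
        exact hx (by rw [hout x]; exact (hfin x).2 hc')
      have c5 := g2.trans c4
      exact_mod_cast c5
    have c6 := mul_le_mul_of_nonneg_left c3 hβ
    rw [c1, c2]
    linarith

end level

/-- approximation property of the new net -/
theorem st_AST (h1 : ST_RC) (h2 : ST_E1S) (h3 : ST_E2S) (h4 : ST_CNT) (h5 : ST_COMP)
    (h6 : ST_LOC) (h7 : ST_QPC) : ST_AST := by
  intro V J _ _ _ _ N S A B C Bd t ρ Nn D Lam κ β Mlow hκ hβ hAB hAC hBC ht hD hsz hD0 hM hB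
    hLam hρ hκ1 hov hNn hApp lam
  obtain ⟨E, hE1, hE2⟩ := hApp lam
  have ht' : (1 : ℝ) ≤ t := by exact_mod_cast ht
  have hT : (0 : ℝ) < (2 : ℝ) ^ ρ := by positivity
  refine ⟨fun l => E (l - ρ) + ∑ i ∈ B ∪ C, E1c κ t ((2 : ℝ) ^ ρ) Lam D ((2 : ℝ) ^ l) |lam i|
      + ∑ j ∈ B, E2c κ ((2 : ℝ) ^ ρ) ((2 : ℝ) ^ l)
          ((1 / (#(S j) : ℝ)) * ∑ x ∈ S j, |fld S lam (A ∪ B ∪ C) x|)
      + β * (#(univ.filter (fun x => (2 : ℝ) ^ l / 4 ≤ |fld S lam (A ∪ B) x|)) : ℝ), ?_, ?_⟩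
  · intro l
    obtain ⟨F, hF1, -, hF3⟩ := hE1 (l - ρ)
    have e1 : (2 : ℝ) ^ (l - (ρ : ℤ)) = (2 : ℝ) ^ l / (2 : ℝ) ^ ρ := by
      rw [zpow_sub₀ (by norm_num), zpow_natCast]
    rw [e1] at hF1
    exact ast_level h1 h5 h6 h7 N S A B C t D ((2 : ℝ) ^ ρ) Lam κ β Mlow ((2 : ℝ) ^ l) (E (l - ρ))
      hβ hAB hAC ht hD hsz hM hB hLam hρ hκ1 hov (by positivity) lam F hF1 hF3
  · intro G
    have s1 : ∑ l ∈ G, (2 : ℝ) ^ l * E (l - ρ) ≤ (2 : ℝ) ^ ρ * Bd lam := by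
      have s2 := hE2 (G.image (fun l => l - (ρ : ℤ)))
      rw [Finset.sum_image (fun a _ b _ hab => by simpa using hab)] at s2
      have s3 := mul_le_mul_of_nonneg_left s2 hT.le
      rw [Finset.mul_sum] at s3
      refine le_trans (le_of_eq ?_) s3
      refine Finset.sum_congr rfl fun l _ => ?_
      rw [zpow_sub₀ (by norm_num : (2 : ℝ) ≠ 0), zpow_natCast]
      field_simp
    have s2 : ∑ l ∈ G, (2 : ℝ) ^ l * ∑ i ∈ B ∪ C, E1c κ t ((2 : ℝ) ^ ρ) Lam D ((2 : ℝ) ^ l) |lam i|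
        ≤ Rc κ t ((2 : ℝ) ^ ρ) Lam D Nn * ∑ i ∈ B ∪ C, |lam i| := by
      simp only [Finset.mul_sum]
      rw [Finset.sum_comm]
      refine Finset.sum_le_sum fun i _ => ?_
      exact h2 κ t ((2 : ℝ) ^ ρ) Lam D |lam i| Nn G hκ ht' hT hLam hD0 (abs_nonneg _) hNn
    have s3 : ∑ l ∈ G, (2 : ℝ) ^ l * ∑ j ∈ B, E2c κ ((2 : ℝ) ^ ρ) ((2 : ℝ) ^ l)
          ((1 / (#(S j) : ℝ)) * ∑ x ∈ S j, |fld S lam (A ∪ B ∪ C) x|)
        ≤ 2 * (κ + 2) * (2 : ℝ) ^ ρ * t / Mlow * l1 (fld S lam (A ∪ B ∪ C)) := by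
      have s4 : ∑ l ∈ G, (2 : ℝ) ^ l * ∑ j ∈ B, E2c κ ((2 : ℝ) ^ ρ) ((2 : ℝ) ^ l)
          ((1 / (#(S j) : ℝ)) * ∑ x ∈ S j, |fld S lam (A ∪ B ∪ C) x|)
          ≤ 2 * (κ + 2) * (2 : ℝ) ^ ρ
            * ∑ j ∈ B, (1 / (#(S j) : ℝ)) * ∑ x ∈ S j, |fld S lam (A ∪ B ∪ C) x| := by
        simp only [Finset.mul_sum (s := B)]
        rw [Finset.sum_comm]
        refine Finset.sum_le_sum fun j _ => ?_
        exact h3 κ ((2 : ℝ) ^ ρ) _ G hκ hT (mul_nonneg (by positivity)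
          (Finset.sum_nonneg fun x _ => abs_nonneg _))
      refine s4.trans ?_
      have s5 := ast_l1 S B t Mlow (fld S lam (A ∪ B ∪ C)) hD hM hB
      have s6 : (0 : ℝ) ≤ 2 * (κ + 2) * (2 : ℝ) ^ ρ := by positivity
      refine (mul_le_mul_of_nonneg_left s5 s6).trans (le_of_eq ?_)
      ring
    have s4 : ∑ l ∈ G, (2 : ℝ) ^ l
          * (β * (#(univ.filter (fun x => (2 : ℝ) ^ l / 4 ≤ |fld S lam (A ∪ B) x|)) : ℝ))
        ≤ 8 * β * l1 (fld S lam (A ∪ B)) := by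
      have s5 := mul_le_mul_of_nonneg_left (h4 V (fld S lam (A ∪ B)) G) hβ
      rw [Finset.mul_sum] at s5
      refine le_trans (le_of_eq ?_) (s5.trans (le_of_eq (by ring)))
      refine Finset.sum_congr rfl fun l _ => ?_
      ring
    have s5 : ∀ (a b c d : ℤ → ℝ), ∑ l ∈ G, (2 : ℝ) ^ l * (a l + b l + c l + d l)
        = ∑ l ∈ G, (2 : ℝ) ^ l * a l + ∑ l ∈ G, (2 : ℝ) ^ l * b l + ∑ l ∈ G, (2 : ℝ) ^ l * c l
          + ∑ l ∈ G, (2 : ℝ) ^ l * d l := by
      intro a b c d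
      rw [← Finset.sum_add_distrib, ← Finset.sum_add_distrib, ← Finset.sum_add_distrib]
      exact Finset.sum_congr rfl fun l _ => by ring
    rw [s5]
    exact add_le_add (add_le_add (add_le_add s1 s2) s3) s4

end Pool.Agent.Helper50.BL
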